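import Pool.Agent.V1157.RE.Defs
import Pool.Agent.V1157.BD.Main

/-!
# Graded operators which are algebraic up to errors of bounded rank
-/

open CategoryTheory AlgebraicGeometry

universe u v w

namespace Pool.Agent.V1157.RE

open Pool.Agent.H914 Pool.Agent.H914.VarClass Pool.Agent.H914.VarClass.Obj Pool.Agent.W492.BB
  Pool.Agent.W550.Corr Pool.Agent.TH133 Pool.Agent.Y148.BB Pool.Agent.V1157.BD
open Pool.Agent.V1157.RC (graph_mem cog_gr pow_eq_sum pow_mem')

set_option linter.unusedSectionVars false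

/-- The linear algebra: blocks of an operator of small rank. -/
lemma card_le_rank {K V S : Type*} [Field K] [AddCommGroup V] [Module K V] [AddCommGroup S]
    [Module K S] [Module.Finite K V] [Module.Finite K S] (M : Submodule K (S →ₗ[K] S))
    (E : V →ₗ[K] V) {N : ℕ} (α : Fin N → S →ₗ[K] V) (β : Fin N → V →ₗ[K] S) {φ : S →ₗ[K] S}
    (hφ : φ ∉ M) {κ : K} (hκ : κ ≠ 0)
    (h1 : ∀ j, (β j).comp (E.comp (α j)) - κ • φ ∈ M)
    (h2 : ∀ l j, l ≠ j → (β l).comp (E.comp (α j)) ∈ M) :
    N ≤ Module.finrank K (LinearMap.range E) * Module.finrank K S := by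
  classical
  let u : Fin N → (LinearMap.range E →ₗ[K] S) := fun l => (β l).comp (LinearMap.range E).subtype
  have hli : LinearIndependent K u := by
    rw [Fintype.linearIndependent_iff]
    intro c hc j
    have h3 : ∑ l, c l • (β l).comp (E.comp (α j)) = 0 := by
      apply LinearMap.ext
      intro s
      have h4 := LinearMap.congr_fun hc ⟨E (α j s), LinearMap.mem_range_self E _⟩
      rw [LinearMap.sum_apply] at h4
      rw [LinearMap.sum_apply]
      exact h4
    rw [← Finset.add_sum_erase _ _ (Finset.mem_univ j)] at h3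
    have h5 : ∑ l ∈ Finset.univ.erase j, c l • (β l).comp (E.comp (α j)) ∈ M :=
      Submodule.sum_mem _ fun l hl => Submodule.smul_mem _ _ (h2 l j (Finset.mem_erase.1 hl).1)
    have h6 : c j • (κ • φ) ∈ M := by
      have h7 : c j • (κ • φ) = c j • (β j).comp (E.comp (α j)) -
          c j • ((β j).comp (E.comp (α j)) - κ • φ) := by
        rw [smul_sub, sub_sub_cancel]
      rw [h7]
      refine Submodule.sub_mem _ ?_ (Submodule.smul_mem _ _ (h1 j))
      have h8 : c j • (β j).comp (E.comp (α j)) =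
          -∑ l ∈ Finset.univ.erase j, c l • (β l).comp (E.comp (α j)) :=
        eq_neg_of_add_eq_zero_left h3
      rw [h8]
      exact Submodule.neg_mem _ h5
    by_contra hcj
    apply hφ
    have h9 := Submodule.smul_mem _ (c j * κ)⁻¹ h6
    rwa [smul_smul, smul_smul, mul_assoc, inv_mul_cancel₀ (mul_ne_zero hcj hκ), one_smul] at h9
  have h3 := hli.fintype_card_le_finrank
  rwa [Fintype.card_fin, Module.finrank_linearMap] at h3

variable {k : Type u} [Field k] {𝒱 : VarClass k} {C : TheoryData.{u, v, 0} 𝒱 ℚ}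
  [hC : IsChowProj C] {K : Type w} [Field K] {H : WeilTheoryData.{u, v, w} C K}
  [hH : IsWeilProj H] {S V X Y : 𝒱.Obj} {n : ℕ} {lam : ℤ → K}

variable (H) in
/-- The space of algebraic operators on `H(X)`. -/
def algOps (X : 𝒱.Obj) : Submodule K (H.A X →ₗ[K] H.A X) :=
  Submodule.span K {φ | ∃ z : C.A (X.prod X), C.Deg X.dim z ∧ ∀ t, φ t = H.act (H.cl z) t}

variable (H) in
/-- The operator `ν` multiplies the classes of degree `l` by `lam l`, for all `l`. -/
def IsGraded (lam : ℤ → K) {X : 𝒱.Obj} (ν : H.A X →ₗ[K] H.A X) : Prop :=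
  ∀ (l : ℤ) (t : H.A X), H.Deg l t → ν t = lam l • t

include hC hH

/-- Linear maps which agree on homogeneous classes are equal. -/
lemma ext_deg {M : Type*} [AddCommGroup M] [Module K M] {φ ψ : H.A X →ₗ[K] M}
    (h : ∀ (l : ℤ) (t : H.A X), H.Deg l t → φ t = ψ t) : φ = ψ := by
  have h1 : ⨆ i, H.gr X i = ⊤ :=
    (hH.isTheory.isGradedRing.isInternal X).submodule_iSup_eq_top
  apply LinearMap.ext
  intro t
  have ht : t ∈ ⨆ i, H.gr X i := by rw [h1]; exact Submodule.mem_top
  induction ht using Submodule.iSup_induction' with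
  | mem i x hx => exact h i x hx
  | zero => rw [map_zero, map_zero]
  | add x y _ _ hx hy => rw [map_add, map_add, hx, hy]

lemma graded_unique {ν ν' : H.A X →ₗ[K] H.A X} (h : IsGraded H lam ν) (h' : IsGraded H lam ν') :
    ν = ν' := ext_deg fun l t ht => by rw [h l t ht, h' l t ht]

lemma graded_pull {ν : H.A X →ₗ[K] H.A X} {ν' : H.A Y →ₗ[K] H.A Y} (h : IsGraded H lam ν)
    (h' : IsGraded H lam ν') (f : X ⟶ Y) (t : H.A Y) :
    ν (H.pull f t) = H.pull f (ν' t) := by
  have h1 : ν.comp (H.pull f).toLinearMap = (H.pull f).toLinearMap.comp ν' := by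
    apply ext_deg
    intro l s hs
    change ν (H.pull f s) = H.pull f (ν' s)
    rw [h l _ (H.pull_mem f hs), h' l s hs, map_smul]
  exact LinearMap.congr_fun h1 t

/-- Decomposable correspondences are zero except in one degree. -/
lemma act_ext_deg (hX : X.dim = n) {i : ℕ} {a : C.A X} {b : C.A Y} (ha : C.Deg i a) {l : ℤ}
    (hl : l ≠ 2 * n - 2 * i) {t : H.A X} (ht : H.Deg l t) :
    H.act (H.cl (C.ext a b)) t = 0 := by
  have h0 : H.cl (C.ext a b) = H.pull (fst X Y) (H.cl a) * H.cl (C.pull (snd X Y) b) := by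
    rw [TheoryData.ext, (H.cl (X := X.prod Y)).map_mul, H.cl_pull (fst X Y)]
  have h1 : H.act (H.cl (C.ext a b)) t =
      H.push (snd X Y) (H.pull (fst X Y) (H.cl a * t)) * H.cl b := by
    rw [TheoryData.act_apply, h0, mul_assoc, H.cl_central, ← mul_assoc, H.cl_pull,
      H.proj_right, ← map_mul (H.pull (fst X Y))]
  have h2 : H.cl a * t ∈ H.gr X (2 * i + l) := H.mul_mem (H.cl_mem ha) ht
  have h3' := H.push_mem (snd X Y) (H.pull_mem (fst X Y) h2)
  have e3 : (2 * i + l : ℤ) + 2 * ((Y.dim : ℤ) - ((X.prod Y).dim : ℤ)) = 2 * i + l - 2 * n := by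
    rw [dim_prod, hX]; push_cast; ring
  have h3 : H.push (snd X Y) (H.pull (fst X Y) (H.cl a * t)) ∈ H.gr Y (2 * i + l - 2 * n) := by
    rwa [e3] at h3'
  rw [h1]
  rcases lt_trichotomy (2 * (i : ℤ) + l) (2 * n) with h | h | h
  · rw [H.gr_neg Y _ (by omega)] at h3
    rw [(Submodule.mem_bot _).1 h3, zero_mul]
  · exact absurd (by omega) hl
  · rw [gr_top H (by rw [hX]; omega)] at h2
    rw [(Submodule.mem_bot _).1 h2, map_zero, map_zero, zero_mul]

omit hC in
lemma cast_smul [CharZero K] (q : ℚ) (t : H.A X) : sc H X q * t = (q : K) • t := by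
  have h1 : (H.cl (X := X)).comp (algebraMap ℚ (C.A X)) =
      (algebraMap K (H.A X)).comp (algebraMap ℚ K) := RingHom.ext_rat _ _
  have h2 : sc H X q = algebraMap K (H.A X) (q : K) := by
    have := RingHom.congr_fun h1 q
    simpa [sc] using this
  rw [h2, Algebra.smul_def]

lemma actL_smul [CharZero K] (q : ℚ) (Γ : C.A (X.prod Y)) :
    H.actL (H.cl (q • Γ)) = (q : K) • H.actL (H.cl Γ) := by
  apply LinearMap.ext
  intro t
  change H.act (H.cl (q • Γ)) t = (q : K) • H.act (H.cl Γ) t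
  rw [act_cl_smul, cast_smul]

omit hC hH in
lemma actL_mem {z : C.A (X.prod X)} (hz : C.Deg X.dim z) : H.actL (H.cl z) ∈ algOps H X :=
  Submodule.subset_span ⟨z, hz, fun _ => rfl⟩

/-- The composition of a decomposable correspondence with a graded operator is algebraic. -/
lemma ext_graded (hX : X.dim = n) {i : ℕ} (hi : i ≤ n) {a b : C.A X} (ha : C.Deg i a)
    (hb : C.Deg ((n - i : ℕ) : ℤ) b) {ν : H.A X →ₗ[K] H.A X} (hν : IsGraded H lam ν) :
    (H.actL (H.cl (C.ext a b))).comp ν ∈ algOps H X := by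
  have h1 : (H.actL (H.cl (C.ext a b))).comp ν =
      lam (2 * n - 2 * i) • H.actL (H.cl (C.ext a b)) := by
    apply ext_deg
    intro l t ht
    change H.act (H.cl (C.ext a b)) (ν t) = lam (2 * n - 2 * i) • H.act (H.cl (C.ext a b)) t
    rw [hν l t ht]
    have h2 : H.act (H.cl (C.ext a b)) (lam l • t) = lam l • H.act (H.cl (C.ext a b)) t :=
      map_smul (H.actL (H.cl (C.ext a b))) _ _
    rw [h2]
    by_cases hl : l = 2 * n - 2 * i
    · rw [hl]
    · rw [act_ext_deg hX ha hl ht, smul_zero, smul_zero]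
  rw [h1]
  apply Submodule.smul_mem
  apply actL_mem
  have h3 := C.mul_mem (C.pull_mem (fst X X) ha) (C.pull_mem (snd X X) hb)
  exact gr_congr (by rw [hX]; omega) h3

lemma pow_graded [CharZero K] (hX : X.dim = n) {a : C.A X} (ha : a ∈ C.gr X 1) (c : ℚ)
    {ν : H.A X →ₗ[K] H.A X} (hν : IsGraded H lam ν) :
    (H.actL (H.cl (c • (C.pull (fst X X) a + C.pull (snd X X) a) ^ n))).comp ν ∈
      algOps H X := by
  rw [actL_smul, pow_eq_sum, LinearMap.smul_comp]
  apply Submodule.smul_mem
  have h1 : H.actL (H.cl (∑ j ∈ Finset.range (n + 1), (n.choose j : ℚ) •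
      C.ext (a ^ j) (a ^ (n - j)))) = ∑ j ∈ Finset.range (n + 1),
        H.actL (H.cl ((n.choose j : ℚ) • C.ext (a ^ j) (a ^ (n - j)))) := by
    apply LinearMap.ext
    intro t
    rw [LinearMap.sum_apply]
    change H.act _ t = ∑ j ∈ Finset.range (n + 1), H.act _ t
    rw [map_sum, act_sum]
  rw [h1]
  have h2 : (∑ j ∈ Finset.range (n + 1), H.actL (H.cl ((n.choose j : ℚ) •
      C.ext (a ^ j) (a ^ (n - j))))).comp ν = ∑ j ∈ Finset.range (n + 1),
        (H.actL (H.cl ((n.choose j : ℚ) • C.ext (a ^ j) (a ^ (n - j))))).comp ν := by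
    apply LinearMap.ext
    intro t
    simp [LinearMap.sum_apply]
  rw [h2]
  apply Submodule.sum_mem
  intro j hj
  have hj' : j ≤ n := Nat.lt_succ_iff.1 (Finset.mem_range.1 hj)
  rw [actL_smul, LinearMap.smul_comp]
  exact Submodule.smul_mem _ _ (ext_graded hX hj' (pow_mem' ha _) (pow_mem' ha _) hν)

lemma block_mem (hV : V.dim = n) (hS : S.dim = n) (f g : V ⟶ S) {Γ : H.A V →ₗ[K] H.A V}
    (hΓ : Γ ∈ algOps H V) :
    (H.push g).comp (Γ.comp (H.pull f).toLinearMap) ∈ algOps H S := by
  induction hΓ using Submodule.span_induction with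
  | mem φ hφ =>
    obtain ⟨z, hz, hφ⟩ := hφ
    refine Submodule.subset_span ⟨C.comp (C.comp (C.cograph f) z) (C.graph g), ?_, fun t => ?_⟩
    · have g1 : C.cograph f ∈ C.gr (S.prod V) (S.dim + 0) :=
        gr_congr (by ring) (cograph_mem f)
      have g2 : z ∈ C.gr (V.prod V) (V.dim + 0) := gr_congr (by ring) hz
      have g3 : C.graph g ∈ C.gr (V.prod S) (V.dim + 0) :=
        gr_congr (by rw [hS, hV]; ring) (graph_mem g)
      exact gr_congr (by ring) (comp_mem C (comp_mem C g1 g2) g3)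
    · change H.push g (φ (H.pull f t)) = _
      rw [actH_comp, actH_comp, hφ]
      have e1 : H.cl (C.cograph f) = H.cograph f := by
        rw [TheoryData.cograph, TheoryData.cograph, H.cl_push, map_one]
      have e2 : H.cl (C.graph g) = H.graph g := by
        rw [TheoryData.graph, TheoryData.graph, H.cl_push, map_one]
      rw [e1, e2, H.act_cograph, H.act_graph]
  | zero =>
    rw [LinearMap.zero_comp, LinearMap.comp_zero]
    exact Submodule.zero_mem _
  | add φ ψ _ _ hφ hψ =>
    rw [LinearMap.add_comp, LinearMap.comp_add]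
    exact Submodule.add_mem _ hφ hψ
  | smul c φ _ hφ =>
    rw [LinearMap.smul_comp, LinearMap.comp_smul]
    exact Submodule.smul_mem _ _ hφ

/-- The graded operators exist. -/
lemma exists_graded (X : 𝒱.Obj) (lam : ℤ → K) : ∃ ν : H.A X →ₗ[K] H.A X, IsGraded H lam ν := by
  classical
  have hI := hH.isTheory.isGradedRing.isInternal X
  let e := LinearEquiv.ofBijective (DirectSum.coeLinearMap (H.gr X)) hI
  let τ : (DirectSum ℤ fun l => H.gr X l) →ₗ[K] H.A X :=
    DirectSum.toModule K ℤ (H.A X) fun l => lam l • (H.gr X l).subtype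
  refine ⟨τ.comp e.symm.toLinearMap, fun l t ht => ?_⟩
  have h1 : e (DirectSum.lof K ℤ (fun l => H.gr X l) l ⟨t, ht⟩) = t := by
    change DirectSum.coeLinearMap (H.gr X) _ = t
    exact DirectSum.coeLinearMap_lof _ l ⟨t, ht⟩
  have h2 : e.symm t = DirectSum.lof K ℤ (fun l => H.gr X l) l ⟨t, ht⟩ := by
    rw [LinearEquiv.symm_apply_eq, h1]
  change τ (e.symm t) = lam l • t
  rw [h2]
  change DirectSum.toModule K ℤ (H.A X) (fun l => lam l • (H.gr X l).subtype)
    (DirectSum.lof K ℤ (fun l => H.gr X l) l ⟨t, ht⟩) = _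
  rw [DirectSum.toModule_lof]
  rfl

omit hC hH in
lemma exists_algOps {φ : H.A X → H.A X} (h : IsAlgOp H φ) :
    ∃ Γ ∈ algOps H X, ∀ t, Γ t = φ t := by
  obtain ⟨m, c, z, hz, hφ⟩ := h
  refine ⟨∑ i, c i • H.actL (H.cl (z i)), Submodule.sum_mem _ fun i _ => Submodule.smul_mem _ _
    (actL_mem (hz i)), fun t => ?_⟩
  rw [hφ, LinearMap.sum_apply]
  rfl

omit hC hH in
lemma isAlgOp_of_mem {Γ : H.A X →ₗ[K] H.A X} (h : Γ ∈ algOps H X) : IsAlgOp H (fun t => Γ t) := by
  induction h using Submodule.span_induction with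
  | mem φ hφ =>
    obtain ⟨z, hz, hφ⟩ := hφ
    exact ⟨1, fun _ => 1, fun _ => z, fun _ => hz, fun t => by simp [hφ t]⟩
  | zero => exact ⟨0, Fin.elim0, Fin.elim0, fun i => i.elim0, fun t => by simp⟩
  | add φ ψ _ _ hφ hψ =>
    obtain ⟨m, c, z, hz, h1⟩ := hφ
    obtain ⟨m', c', z', hz', h2⟩ := hψ
    refine ⟨m + m', Fin.append c c', Fin.append z z', fun i => ?_, fun t => ?_⟩
    · refine Fin.addCases (fun i => ?_) (fun i => ?_) i
      · rw [Fin.append_left]
        exact hz i
      · rw [Fin.append_right]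
        exact hz' i
    · rw [Fin.sum_univ_add]
      simp only [Fin.append_left, Fin.append_right]
      rw [← h1, ← h2]
      rfl
  | smul a φ _ hφ =>
    obtain ⟨m, c, z, hz, h1⟩ := hφ
    refine ⟨m, fun i => a * c i, z, hz, fun t => ?_⟩
    change a • φ t = _
    have h2 : φ t = ∑ i, c i • H.act (H.cl (z i)) t := h1 t
    rw [h2, Finset.smul_sum]
    refine Finset.sum_congr rfl fun i _ => ?_
    rw [smul_smul]

/-- The error operator. -/
lemma exists_error [Module.Finite K (H.A X)] {D : ℕ} {φ : H.A X → H.A X} (hφ : IsAlgOp H φ)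
    {v : Fin D → H.A X}
    (hv : ∀ (l : ℤ) (t : H.A X), H.Deg l t → lam l • t - φ t ∈ Submodule.span K (Set.range v)) :
    ∃ Γ ∈ algOps H X, ∃ E : H.A X →ₗ[K] H.A X,
      Module.finrank K (LinearMap.range E) ≤ D ∧ IsGraded H lam (Γ + E) := by
  obtain ⟨Γ, hΓ, hΓφ⟩ := exists_algOps hφ
  obtain ⟨ν, hν⟩ := exists_graded (H := H) X lam
  refine ⟨Γ, hΓ, ν - Γ, ?_, by rwa [add_sub_cancel]⟩
  have h1 : LinearMap.range (ν - Γ) ≤ Submodule.span K (Set.range v) := by
    rintro _ ⟨t, rfl⟩
    have h2 : ⨆ i, H.gr X i = ⊤ :=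
      (hH.isTheory.isGradedRing.isInternal X).submodule_iSup_eq_top
    have ht : t ∈ ⨆ i, H.gr X i := by rw [h2]; exact Submodule.mem_top
    induction ht using Submodule.iSup_induction' with
    | mem i x hx =>
      rw [LinearMap.sub_apply, hν i x hx, hΓφ]
      exact hv i x hx
    | zero => rw [map_zero]; exact Submodule.zero_mem _
    | add x y _ _ hx hy => rw [map_add]; exact Submodule.add_mem _ hx hy
  calc Module.finrank K (LinearMap.range (ν - Γ)) ≤
      Module.finrank K (Submodule.span K (Set.range v)) := Submodule.finrank_mono h1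
    _ ≤ Fintype.card (Fin D) := finrank_range_le_card v
    _ = D := Fintype.card_fin D

/-- **Graded operators which are algebraic up to bounded rank are algebraic.** -/
theorem algebraic_of_rank [CharZero K] (hfin : ∀ X : 𝒱.Obj, Module.Finite K (H.A X))
    (hP : ∀ (S : 𝒱.Obj) (N : ℕ), S.dim = n → HasPower C n N S) {D : ℕ}
    (hD : GradedUpToRank H lam n D) : GradedAlgebraic H lam n := by
  intro S hS
  have := hfin S
  obtain ⟨φ₀, hφ₀, v₀, hv₀⟩ := hD S hS
  obtain ⟨Γ₀, hΓ₀, E₀, -, hν⟩ := exists_error hφ₀ hv₀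
  suffices hmem : Γ₀ + E₀ ∈ algOps H S from ⟨_, isAlgOp_of_mem hmem, hν⟩
  by_contra hne
  obtain ⟨V, p, a, b, κ, h⟩ := exists_pw hS (hP S (D * Module.finrank K (H.A S) + 1) hS)
  have := hfin V
  obtain ⟨φ₁, hφ₁, v₁, hv₁⟩ := hD V h.dimV
  obtain ⟨Γ, hΓ, E, hE, hν'⟩ := exists_error hφ₁ hv₁
  have hblock : ∀ l j : ℕ, (H.push (p l)).comp (E.comp (H.pull (p j)).toLinearMap) =
      ((H.push (p l)).comp (H.pull (p j)).toLinearMap).comp (Γ₀ + E₀) -
        (H.push (p l)).comp (Γ.comp (H.pull (p j)).toLinearMap) := by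
    intro l j
    apply LinearMap.ext
    intro t
    change H.push (p l) (E (H.pull (p j) t)) =
      H.push (p l) (H.pull (p j) ((Γ₀ + E₀) t)) - H.push (p l) (Γ (H.pull (p j) t))
    rw [← graded_pull hν' hν (p j) t, LinearMap.add_apply, map_add, add_sub_cancel_left]
  have key := card_le_rank (algOps H S) E
    (fun j : Fin (D * Module.finrank K (H.A S) + 1) => (H.pull (p j)).toLinearMap)
    (fun l => H.push (p l)) hne (κ := (κ : K)) (by exact_mod_cast h.hκ)
    (fun j => by
      rw [hblock]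
      have e1 : ((H.push (p j)).comp (H.pull (p j)).toLinearMap).comp (Γ₀ + E₀) =
          (κ : K) • (Γ₀ + E₀) := by
        apply LinearMap.ext
        intro t
        change H.push (p j) (H.pull (p j) ((Γ₀ + E₀) t)) = (κ : K) • (Γ₀ + E₀) t
        rw [h.push_pull j.2, cast_smul]
      rw [e1, sub_right_comm, sub_self, zero_sub]
      exact Submodule.neg_mem _ (block_mem h.dimV h.dimS (p j) (p j) hΓ))
    (fun l j hlj => by
      rw [hblock]
      refine Submodule.sub_mem _ ?_ (block_mem h.dimV h.dimS (p j) (p l) hΓ)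
      have e1 : (H.push (p l)).comp (H.pull (p j)).toLinearMap =
          H.actL (H.cl (b • (C.pull (fst S S) a + C.pull (snd S S) a) ^ n)) := by
        apply LinearMap.ext
        intro t
        change H.push (p l) (H.pull (p j) t) = H.act (H.cl _) t
        rw [← h.pq j j.2 l l.2 (fun e => hlj (Fin.ext e).symm), ← cog_gr, actH_comp]
        have e1 : H.cl (C.cograph (p j)) = H.cograph (p j) := by
          rw [TheoryData.cograph, TheoryData.cograph, H.cl_push, map_one]
        have e2 : H.cl (C.graph (p l)) = H.graph (p l) := by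
          rw [TheoryData.graph, TheoryData.graph, H.cl_push, map_one]
        rw [e1, e2, H.act_cograph, H.act_graph]
      rw [e1]
      exact pow_graded hS h.ha b hν)
  have h1 := Nat.mul_le_mul_right (Module.finrank K (H.A S)) hE
  omega

omit hC hH in
theorem rank_of_algebraic (h : GradedAlgebraic H lam n) : GradedUpToRank H lam n 0 := by
  intro X hX
  obtain ⟨φ, hφ, hφ'⟩ := h X hX
  refine ⟨φ, hφ, Fin.elim0, fun l t ht => ?_⟩
  rw [hφ' l t ht, sub_self]
  exact Submodule.zero_mem _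

end Pool.Agent.V1157.RE
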