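import Pool.Agent.V1157.BD.Defs

/-!
# Graded operators which are algebraic up to errors of bounded rank: definitions
-/

open CategoryTheory AlgebraicGeometry

universe u v w

namespace Pool.Agent.V1157.RE

open Pool.Agent.H914 Pool.Agent.H914.VarClass Pool.Agent.H914.VarClass.Obj Pool.Agent.W492.BB
  Pool.Agent.V1157.BD

variable {k : Type u} [Field k] {𝒱 : VarClass k} {C : TheoryData.{u, v, 0} 𝒱 ℚ} {K : Type w}
  [Field K] (H : WeilTheoryData.{u, v, w} C K)

/-- The operator `φ` on `H(X)` is algebraic: it is a `K`-linear combination of actions of cycles of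
codimension `dim X` on `X × X`. -/
def IsAlgOp {X : 𝒱.Obj} (φ : H.A X → H.A X) : Prop :=
  ∃ (m : ℕ) (c : Fin m → K) (z : Fin m → C.A (X.prod X)), (∀ i, C.Deg X.dim (z i)) ∧
    ∀ t, φ t = ∑ i, c i • H.act (H.cl (z i)) t

variable (lam : ℤ → K) (n : ℕ)

/-- On the varieties of dimension `n`, the operator which multiplies the classes of degree `l` by
`lam l`, for all `l`, is algebraic. (It is the projector onto `H^i(X)` if `lam i = 1` and
`lam l = 0` for `l ≠ i`.) -/
def GradedAlgebraic : Prop :=
  ∀ X : 𝒱.Obj, X.dim = n → ∃ φ : H.A X → H.A X, IsAlgOp H φ ∧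
    ∀ (l : ℤ) (t : H.A X), H.Deg l t → φ t = lam l • t

/-- On the varieties of dimension `n`, the operator which multiplies the classes of degree `l` by
`lam l`, for all `l`, is the sum of an algebraic operator `φ` and of a linear map of rank at most
`D`: the images of the classes under the difference are in the span of `D` elements. -/
def GradedUpToRank (D : ℕ) : Prop :=
  ∀ X : 𝒱.Obj, X.dim = n → ∃ φ : H.A X → H.A X, IsAlgOp H φ ∧ ∃ v : Fin D → H.A X,
    ∀ (l : ℤ) (t : H.A X), H.Deg l t → lam l • t - φ t ∈ Submodule.span K (Set.range v)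

end Pool.Agent.V1157.RE
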